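import Mathlib

/-!
# Secret sum computation in networks with Gaussian sources: the secrecy closure condition suffices

Condition (C) of the problem is sufficient for a secret coding scheme, for every number of wiretapped
edges. The scheme is linear and forwards as much as possible: an edge which is not wiretapped carries
the values `X_s` of all sources `s` which have a directed path of not wiretapped edges to its tail;
every edge (wiretapped or not) carries the differences `X_s - X_t` of all pairs of such values that are
known at some vertex above its tail. These differences are uncorrelated with the sum, so the wiretapped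
signals, being jointly Gaussian with the sum, are independent of it. The differences known at any vertex
reach the destination. If the edge `(u, v)` is outside of the secrecy closure then some `X_s` is known
in pure form at `u` and hence at `v`; so along an undirected path of such edges from a source `s` to the
destination there is a chain of differences which leads from `X_s` to a value known at the destination.
So the destination learns all `X_s`.
-/

set_option autoImplicit false

namespace Pool.Agent.Results.MP_121ed1_lc.SecretSums

open MeasureTheory ProbabilityTheory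

/-- A network on the set `V`: an acyclic, weakly connected digraph whose only vertex of
out-degree `0` is the destination. -/
structure Network (V : Type) where
  /-- `adj u v`: there is an edge from `u` to `v` -/
  adj : V → V → Prop
  /-- there is no directed cycle -/
  acyclic : ∀ v, ¬ Relation.TransGen adj v v
  /-- weakly connected: any two vertices are linked by an undirected path -/
  connected : ∀ u v, Relation.EqvGen adj u v
  /-- the destination -/
  dest : V
  /-- the destination is the only vertex of out-degree `0` -/
  sink_iff : ∀ v, (∀ w, ¬ adj v w) ↔ v = dest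

variable {V : Type}

namespace Network

/-- The sources are the vertices of in-degree `0`. -/
def IsSource (N : Network V) (v : V) : Prop := ∀ u, ¬ N.adj u v

/-- The type of the sources. -/
abbrev Src (N : Network V) : Type := {v : V // N.IsSource v}

noncomputable instance [Finite V] (N : Network V) : Fintype N.Src := Fintype.ofFinite _

/-- The joint law of the independent standard Gaussian variables `X_s` of the sources. -/
noncomputable def gauss [Finite V] (N : Network V) : Measure (N.Src → ℝ) :=
  Measure.pi fun _ => gaussianReal 0 1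

/-- The sum of the values of all sources. -/
noncomputable def total [Finite V] (N : Network V) (x : N.Src → ℝ) : ℝ := ∑ s, x s

/-- there is a directed path (possibly of length `0`) from `s` to `u` using no edge of `W` -/
def Reach (N : Network V) (W : Set (V × V)) (s u : V) : Prop :=
  Relation.ReflTransGen (fun a b => N.adj a b ∧ (a, b) ∉ W) s u

/-- The secrecy closure of the set `W` of edges. -/
def scl (N : Network V) (W : Set (V × V)) : Set (V × V) :=
  W ∪ {e | N.adj e.1 e.2 ∧ ∀ s : V, N.IsSource s → ¬ N.Reach W s e.1}

/-- Condition (C): every source is linked to the destination by an undirected path of edges that are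
not in the secrecy closure of `W`. -/
def CondC (N : Network V) (W : Set (V × V)) : Prop :=
  ∀ s : V, N.IsSource s → Relation.EqvGen (fun a b => N.adj a b ∧ (a, b) ∉ N.scl W) s N.dest

end Network

/-- A choice of the processing functions for signals with values in `M`: `enc v w` computes the signal
on the edge `(v, w)` from the signals on the edges `(u, v)` and the number `1{v ∈ S} X_v`; `dec` is
the function of the destination. -/
structure Scheme (N : Network V) (M : Type) where
  /-- `f_{v,w}` -/
  enc : (v w : V) → ({u // N.adj u v} → M) × ℝ → M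
  /-- `f_d` -/
  dec : ({u // N.adj u N.dest} → M) → ℝ

open scoped Classical in
/-- The number `1{v ∈ S} X_v`, if `x` is the vector of the values of the sources. -/
noncomputable def own (N : Network V) (v : V) (x : N.Src → ℝ) : ℝ :=
  if h : N.IsSource v then x ⟨v, h⟩ else 0

/-- `Y v w x` is the signal on the edge `(v, w)` if `x` is the vector of the values of the sources. -/
def Scheme.Signals {N : Network V} {M : Type} (F : Scheme N M) (Y : V → V → (N.Src → ℝ) → M) : Prop :=
  ∀ v w, N.adj v w → ∀ x, Y v w x = F.enc v w (fun u => Y u v x, own N v x)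

/-- The scheme is a secret coding scheme with wiretapped edges `W`: all functions are measurable, the
destination computes the sum, and the family of the wiretapped signals is independent of the sum. -/
def Scheme.Secret [Finite V] {N : Network V} {M : Type} [MeasurableSpace M] (F : Scheme N M)
    (W : Set (V × V)) : Prop :=
  (∀ v w, Measurable (F.enc v w)) ∧ Measurable F.dec ∧
    ∃ Y : V → V → (N.Src → ℝ) → M, F.Signals Y ∧
      (∀ x, F.dec (fun u => Y u N.dest x) = N.total x) ∧
      IndepFun (fun x (e : W) => Y e.1.1 e.1.2 x) N.total N.gauss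

/-- All functions of the scheme are linear. -/
def Scheme.Linear {N : Network V} {k : ℕ} (F : Scheme N (Fin k → ℝ)) : Prop :=
  (∀ v w, ∃ L : (({u // N.adj u v} → Fin k → ℝ) × ℝ) →ₗ[ℝ] (Fin k → ℝ), ∀ y, F.enc v w y = L y) ∧
    ∃ L : ({u // N.adj u N.dest} → Fin k → ℝ) →ₗ[ℝ] ℝ, ∀ y, F.dec y = L y

/-! ### The graph -/

section Graph

variable [Finite V] (N : Network V) (W : Set (V × V))

theorem wf_adj : WellFounded (Relation.TransGen N.adj) := by
  have : IsTrans V (Relation.TransGen N.adj) := inferInstance
  have : Std.Irrefl (Relation.TransGen N.adj) := ⟨N.acyclic⟩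
  exact Finite.wellFounded_of_trans_of_irrefl _

theorem wf_adj_swap : WellFounded (Function.swap (Relation.TransGen N.adj)) := by
  have : IsTrans V (Function.swap (Relation.TransGen N.adj)) :=
    ⟨fun a b c hab hbc => Relation.TransGen.trans hbc hab⟩
  have : Std.Irrefl (Function.swap (Relation.TransGen N.adj)) := ⟨N.acyclic⟩
  exact Finite.wellFounded_of_trans_of_irrefl _

theorem exists_source : ∃ v, N.IsSource v := by
  obtain ⟨v, -, hv⟩ := (wf_adj N).has_min Set.univ ⟨N.dest, trivial⟩
  exact ⟨v, fun u h => hv u trivial (Relation.TransGen.single h)⟩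

theorem to_dest (v : V) : Relation.ReflTransGen N.adj v N.dest := by
  induction v using (wf_adj_swap N).induction with
  | _ v ih =>
    by_cases h : v = N.dest
    · rw [h]
    · rw [← N.sink_iff v] at h
      push Not at h
      obtain ⟨w, hw⟩ := h
      exact Relation.ReflTransGen.head hw (ih w (Relation.TransGen.single hw))

omit [Finite V] in
theorem dest_not_source [Nontrivial V] : ¬ N.IsSource N.dest := by
  intro h
  obtain ⟨u, hu⟩ := exists_ne N.dest
  have h1 : ∀ a b, Relation.EqvGen N.adj a b → (a = N.dest ↔ b = N.dest) := by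
    intro a b hab
    induction hab with
    | rel a b hab =>
      constructor
      · rintro rfl
        exact absurd hab ((N.sink_iff _).2 rfl b)
      · rintro rfl
        exact absurd hab (h a)
    | refl a => rfl
    | symm a b _ ih => exact ih.symm
    | trans a b c _ _ ih1 ih2 => exact ih1.trans ih2
  exact hu ((h1 _ _ (N.connected _ _)).1 rfl)

/-- the pairs of sources both known in pure form at a vertex above `v` -/
inductive Diff : V → N.Src → N.Src → Prop
  | base (v : V) (s t : N.Src) (hs : N.Reach W s.1 v) (ht : N.Reach W t.1 v) : Diff v s t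
  | step (u v : V) (s t : N.Src) (h : N.adj u v) (hu : Diff u s t) : Diff v s t

theorem diff_dest {v : V} {s t : N.Src} (h : Diff N W v s t) : Diff N W N.dest s t := by
  have h1 : ∀ w, Relation.ReflTransGen N.adj v w → Diff N W w s t := by
    intro w hw
    induction hw with
    | refl => exact h
    | tail _ hbc ih => exact Diff.step _ _ _ _ hbc ih
  exact h1 _ (to_dest N v)

theorem chain {a b : V} (h : Relation.EqvGen (fun a b => N.adj a b ∧ (a, b) ∉ N.scl W) a b) :
    a = b ∨ ((∃ s : N.Src, N.Reach W s.1 a) ∧ (∃ s : N.Src, N.Reach W s.1 b) ∧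
      ∀ s t : N.Src, N.Reach W s.1 a → N.Reach W t.1 b →
        Relation.EqvGen (Diff N W N.dest) s t) := by
  induction h with
  | rel a b hab =>
    right
    obtain ⟨h1, h2⟩ := hab
    have h3 : (a, b) ∉ W := fun h => h2 (Or.inl h)
    have h4 : ∃ s : V, N.IsSource s ∧ N.Reach W s a := by
      by_contra h5
      push Not at h5
      exact h2 (Or.inr ⟨h1, h5⟩)
    obtain ⟨s0, hs0, h5⟩ := h4
    have h6 : N.Reach W s0 b := Relation.ReflTransGen.tail h5 ⟨h1, h3⟩
    refine ⟨⟨⟨s0, hs0⟩, h5⟩, ⟨⟨s0, hs0⟩, h6⟩, fun s t hs ht => ?_⟩
    exact Relation.EqvGen.trans _ ⟨s0, hs0⟩ _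
      (Relation.EqvGen.rel _ _ (diff_dest N W (Diff.base a s ⟨s0, hs0⟩ hs h5)))
      (Relation.EqvGen.rel _ _ (diff_dest N W (Diff.base b ⟨s0, hs0⟩ t h6 ht)))
  | refl a => exact Or.inl rfl
  | symm a b _ ih =>
    rcases ih with h | ⟨h1, h2, h3⟩
    · exact Or.inl h.symm
    · exact Or.inr ⟨h2, h1, fun s t hs ht => Relation.EqvGen.symm _ _ (h3 t s ht hs)⟩
  | trans a b c _ _ ih1 ih2 =>
    rcases ih1 with rfl | ⟨h1, h2, h3⟩
    · exact ih2
    rcases ih2 with rfl | ⟨h4, h5, h6⟩
    · exact Or.inr ⟨h1, h2, h3⟩
    obtain ⟨r, hr⟩ := h2
    exact Or.inr ⟨h1, h5, fun s t hs ht => Relation.EqvGen.trans _ r _ (h3 s r hs hr) (h6 r t hr ht)⟩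

end Graph

/-! ### The linear maps -/

section Maps

variable [Finite V] (N : Network V) (W : Set (V × V))

/-- the index set of the linear forms: values of sources, and differences of values -/
abbrev Ix (N : Network V) : Type := N.Src ⊕ (N.Src × N.Src)

/-- the linear forms -/
noncomputable def form : Ix N → ((N.Src → ℝ) →ₗ[ℝ] ℝ)
  | Sum.inl s => LinearMap.proj (R := ℝ) (φ := fun _ : N.Src => ℝ) s
  | Sum.inr (s, t) => LinearMap.proj (R := ℝ) (φ := fun _ : N.Src => ℝ) s -
      LinearMap.proj (R := ℝ) (φ := fun _ : N.Src => ℝ) t

/-- the forms whose values are sent on the edge `(v, w)` -/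
def On (v w : V) : Ix N → Prop
  | Sum.inl s => (v, w) ∉ W ∧ N.Reach W s.1 v
  | Sum.inr (s, t) => Diff N W v s t

variable {k : ℕ} (e : Fin k ≃ Ix N)

open scoped Classical in
/-- the signal on the edge `(v, w)` -/
noncomputable def Out (v w : V) : (N.Src → ℝ) →ₗ[ℝ] (Fin k → ℝ) :=
  LinearMap.pi fun i => if On N W v w (e i) then form N (e i) else 0

open scoped Classical in
/-- the value of the own source -/
noncomputable def ownL (v : V) : (N.Src → ℝ) →ₗ[ℝ] ℝ :=
  if h : N.IsSource v then LinearMap.proj ⟨v, h⟩ else 0

omit [Finite V] in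
theorem ownL_apply (v : V) (x : N.Src → ℝ) : ownL N v x = own N v x := by
  unfold ownL own
  split_ifs <;> simp

/-- the incoming signals and the own value -/
noncomputable def Inc (v : V) : (N.Src → ℝ) →ₗ[ℝ] ({u // N.adj u v} → Fin k → ℝ) × ℝ :=
  LinearMap.prod (LinearMap.pi fun u => Out N W e u v) (ownL N v)

omit [Finite V] in
theorem out_val {v w : V} {x : N.Src → ℝ} (h : Out N W e v w x = 0) (i : Ix N) (hi : On N W v w i) :
    form N i x = 0 := by
  have h1 := congrFun h (e.symm i)
  simpa [Out, hi] using h1

theorem vanish {v : V} {x : N.Src → ℝ} (h : Inc N W e v x = 0) :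
    (∀ s : N.Src, N.Reach W s.1 v → x s = 0) ∧ ∀ s t : N.Src, Diff N W v s t → x s = x t := by
  have h1 : ∀ u (hu : N.adj u v), Out N W e u v x = 0 := by
    intro u hu
    have := congrFun (congrArg Prod.fst h) ⟨u, hu⟩
    simpa [Inc] using this
  have h2 : own N v x = 0 := by
    have := congrArg Prod.snd h
    simpa [Inc, ownL_apply] using this
  have h3 : ∀ s : N.Src, N.Reach W s.1 v → x s = 0 := by
    intro s hs
    rcases Relation.ReflTransGen.cases_tail hs with h4 | ⟨u, h4, h5, h6⟩
    · subst h4
      have h5 : own N s.1 x = x s := by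
        unfold own
        rw [dif_pos s.2]
      rw [← h5, h2]
    · exact out_val N W e (h1 u h5) (Sum.inl s) ⟨h6, h4⟩
  refine ⟨h3, fun s t hst => ?_⟩
  cases hst with
  | base _ _ _ hs ht => rw [h3 s hs, h3 t ht]
  | step u _ _ _ h4 h5 =>
    have := out_val N W e (h1 u h4) (Sum.inr (s, t)) h5
    simp only [form, LinearMap.sub_apply, LinearMap.proj_apply] at this
    linarith

theorem ker_le (v w : V) : LinearMap.ker (Inc N W e v) ≤ LinearMap.ker (Out N W e v w) := by
  intro x hx
  obtain ⟨h1, h2⟩ := vanish N W e (LinearMap.mem_ker.1 hx)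
  rw [LinearMap.mem_ker]
  funext i
  simp only [Out, LinearMap.pi_apply, Pi.zero_apply]
  split_ifs with hi
  · rcases hj : e i with s | ⟨s, t⟩
    · rw [hj] at hi
      simpa [form] using h1 s hi.2
    · rw [hj] at hi
      simp only [form, LinearMap.sub_apply, LinearMap.proj_apply]
      rw [h2 s t hi, sub_self]
  · rfl

theorem factor {A B C : Type} [AddCommGroup A] [Module ℝ A] [AddCommGroup B] [Module ℝ B]
    [AddCommGroup C] [Module ℝ C] (f : A →ₗ[ℝ] B) (g : A →ₗ[ℝ] C)
    (h : LinearMap.ker f ≤ LinearMap.ker g) : ∃ L : B →ₗ[ℝ] C, ∀ x, L (f x) = g x := by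
  obtain ⟨L, hL⟩ := LinearMap.exists_extend
    (((LinearMap.ker f).liftQ g h).comp f.quotKerEquivRange.symm.toLinearMap)
  refine ⟨L, fun x => ?_⟩
  have h1 := LinearMap.congr_fun hL ⟨f x, LinearMap.mem_range_self f x⟩
  have h2 : f.quotKerEquivRange.symm ⟨f x, LinearMap.mem_range_self f x⟩ =
      (LinearMap.ker f).mkQ x := by
    rw [LinearEquiv.symm_apply_eq]
    rfl
  simp only [LinearMap.comp_apply, Submodule.subtype_apply, LinearEquiv.coe_coe] at h1
  rw [h1, h2]
  simp

theorem ker_dest [Nontrivial V] (hC : N.CondC W) : LinearMap.ker (Inc N W e N.dest) = ⊥ := by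
  rw [eq_bot_iff]
  intro x hx
  obtain ⟨h1, h2⟩ := vanish N W e (LinearMap.mem_ker.1 hx)
  have h3 : ∀ s t : N.Src, Relation.EqvGen (Diff N W N.dest) s t → x s = x t := by
    intro s t hst
    induction hst with
    | rel s t h => exact h2 s t h
    | refl s => rfl
    | symm s t _ ih => exact ih.symm
    | trans s t r _ _ ih1 ih2 => exact ih1.trans ih2
  rw [Submodule.mem_bot]
  funext s
  rcases chain N W (hC s.1 s.2) with h4 | ⟨-, ⟨t, ht⟩, h6⟩
  · exact absurd (h4 ▸ s.2) (dest_not_source N)
  · rw [h3 s t (h6 s t Relation.ReflTransGen.refl ht), h1 t ht]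
    rfl

end Maps

/-! ### Secrecy -/

section Secrecy

variable [Finite V] (N : Network V) (W : Set (V × V))

instance : IsProbabilityMeasure N.gauss := by
  unfold Network.gauss
  infer_instance

theorem indep_coord : iIndepFun (fun (s : N.Src) (x : N.Src → ℝ) => x s) N.gauss := by
  have := iIndepFun_pi (μ := fun _ : N.Src => gaussianReal 0 1) (X := fun _ y => y)
    (fun _ => aemeasurable_id)
  exact this

theorem map_coord (s : N.Src) : N.gauss.map (fun x : N.Src → ℝ => x s) = gaussianReal 0 1 :=
  (measurePreserving_eval (fun _ : N.Src => gaussianReal 0 1) s).map_eq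

theorem coord_law (s : N.Src) : HasGaussianLaw (fun x : N.Src → ℝ => x s) N.gauss := by
  refine ⟨?_⟩
  rw [map_coord]
  infer_instance

theorem gauss_law : HasGaussianLaw (fun x : N.Src → ℝ => x) N.gauss :=
  iIndepFun.hasGaussianLaw (coord_law N) (indep_coord N)

theorem cov_total (s : N.Src) : cov[fun x : N.Src → ℝ => x s, N.total; N.gauss] = 1 := by
  classical
  have h1 : N.total = fun x : N.Src → ℝ => ∑ r, x r := rfl
  rw [h1, covariance_fun_sum_right (fun r => (coord_law N r).memLp_two) (coord_law N s).memLp_two,
    Finset.sum_eq_single s]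
  · rw [covariance_self (measurable_pi_apply s).aemeasurable]
    have h2 := variance_id_map (μ := N.gauss) (X := fun x : N.Src → ℝ => x s)
      (measurable_pi_apply s).aemeasurable
    rw [← h2, map_coord, variance_id_gaussianReal]
    simp
  · intro r _ hr
    exact ((indep_coord N).indepFun hr.symm).covariance_eq_zero (coord_law N s).memLp_two
      (coord_law N r).memLp_two
  · intro h
    exact absurd (Finset.mem_univ s) h

theorem memLp_total : MemLp N.total 2 N.gauss := by
  have h1 : N.total = fun x : N.Src → ℝ => ∑ r, x r := rfl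
  rw [h1]
  exact memLp_finsetSum _ fun r _ => (coord_law N r).memLp_two

theorem cov_diff (s t : N.Src) : cov[fun x : N.Src → ℝ => x s - x t, N.total; N.gauss] = 0 := by
  rw [covariance_fun_sub_left (coord_law N s).memLp_two (coord_law N t).memLp_two (memLp_total N),
    cov_total, cov_total, sub_self]

/-- the sum as a linear form -/
noncomputable def totalL : (N.Src → ℝ) →ₗ[ℝ] ℝ where
  toFun := N.total
  map_add' x y := by simp [Network.total, Finset.sum_add_distrib]
  map_smul' c x := by simp [Network.total, Finset.mul_sum]

variable {k : ℕ} (e : Fin k ≃ Ix N)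

theorem indep : IndepFun (fun x (d : W) => Out N W e d.1.1 d.1.2 x) N.total N.gauss := by
  have h0 : Finite W := inferInstance
  -- all coordinates of the wiretapped signals, and the sum
  let L : (N.Src → ℝ) →ₗ[ℝ] (W × Fin k → ℝ) × (Unit → ℝ) :=
    LinearMap.prod (LinearMap.pi fun q => (LinearMap.proj q.2).comp (Out N W e q.1.1.1 q.1.1.2))
      (LinearMap.pi fun _ => totalL N)
  have := Fintype.ofFinite W
  have h1 : HasGaussianLaw (fun x : N.Src → ℝ =>
      ((fun q : W × Fin k => Out N W e q.1.1.1 q.1.1.2 x q.2), (fun _ : Unit => N.total x)))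
      N.gauss :=
    (gauss_law N).map_fun (LinearMap.toContinuousLinearMap L)
  have h2 := HasGaussianLaw.indepFun_of_covariance_eval
    (X := fun (q : W × Fin k) (x : N.Src → ℝ) => Out N W e q.1.1.1 q.1.1.2 x q.2)
    (Y := fun (_ : Unit) (x : N.Src → ℝ) => N.total x) h1 (by
      rintro ⟨d, i⟩ -
      have h3 : ∀ x : N.Src → ℝ, Out N W e d.1.1 d.1.2 x i = (open scoped Classical in
          if On N W d.1.1 d.1.2 (e i) then form N (e i) else 0) x := fun x => rfl
      by_cases hi : On N W d.1.1 d.1.2 (e i)
      · rcases hj : e i with s | ⟨s, t⟩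
        · rw [hj] at hi
          exact absurd d.2 hi.1
        · have h4 : (fun x : N.Src → ℝ => Out N W e d.1.1 d.1.2 x i) = fun x => x s - x t := by
            funext x
            rw [h3, if_pos hi, hj]
            rfl
          show cov[fun x : N.Src → ℝ => Out N W e d.1.1 d.1.2 x i, N.total; N.gauss] = 0
          rw [h4, cov_diff]
      · have h4 : (fun x : N.Src → ℝ => Out N W e d.1.1 d.1.2 x i) = fun _ => 0 := by
          funext x
          rw [h3, if_neg hi]
          rfl
        show cov[fun x : N.Src → ℝ => Out N W e d.1.1 d.1.2 x i, N.total; N.gauss] = 0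
        rw [h4, covariance_const_left])
  exact h2.comp (φ := fun (z : W × Fin k → ℝ) (d : W) (i : Fin k) => z (d, i))
    (ψ := fun z : Unit → ℝ => z ()) (by fun_prop) (by fun_prop)

end Secrecy

/-! ### The schemes -/

section Final

variable [Finite V]

/-- the linear scheme -/
theorem exists_linear [Nontrivial V] (N : Network V) (W : Set (V × V)) (hC : N.CondC W) :
    ∃ (k : ℕ) (_ : 0 < k) (F : Scheme N (Fin k → ℝ)), F.Linear ∧ F.Secret W := by
  have h0 : Finite (Ix N) := inferInstance
  obtain ⟨k, ⟨e'⟩⟩ := Finite.exists_equiv_fin (Ix N)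
  have e := e'.symm
  obtain ⟨s, hs⟩ := exists_source N
  have hk : 0 < k := by
    rcases Nat.eq_zero_or_pos k with rfl | h
    · exact (e.symm (Sum.inl ⟨s, hs⟩)).elim0
    · exact h
  choose C hC' using fun v w => factor (Inc N W e v) (Out N W e v w) (ker_le N W e v w)
  obtain ⟨D, hD⟩ := factor (Inc N W e N.dest) (totalL N) (by
    rw [ker_dest N W e hC]
    exact bot_le)
  let D' : ({u // N.adj u N.dest} → Fin k → ℝ) →ₗ[ℝ] ℝ := D.comp (LinearMap.inl ℝ _ _)
  refine ⟨k, hk, ⟨fun v w y => C v w y, fun y => D' y⟩, ⟨fun v w => ⟨C v w, fun y => rfl⟩,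
    ⟨D', fun y => rfl⟩⟩, fun v w => ?_, ?_, fun v w x => Out N W e v w x, ?_, ?_, indep N W e⟩
  · have : Finite {u // N.adj u v} := inferInstance
    have := Fintype.ofFinite {u // N.adj u v}
    exact (LinearMap.continuous_of_finiteDimensional (C v w)).measurable
  · have := Fintype.ofFinite {u // N.adj u N.dest}
    exact (LinearMap.continuous_of_finiteDimensional D').measurable
  · intro v w _ x
    show Out N W e v w x = C v w (fun u => Out N W e u v x, own N v x)
    rw [← hC' v w x, ← ownL_apply]
    rfl
  · intro x
    show D (fun u => Out N W e u N.dest x, 0) = totalL N x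
    rw [← hD x]
    congr 1
    have h1 : own N N.dest x = 0 := by
      unfold own
      rw [dif_neg (dest_not_source N)]
    show _ = (fun u : {u // N.adj u N.dest} => Out N W e u N.dest x, ownL N N.dest x)
    rw [ownL_apply, h1]

/-- The signals on the edges are determined by the functions of the scheme (the network being
acyclic and finite), so the existential quantifier in `Scheme.Secret` is harmless. -/
theorem signals_unique {N : Network V} {M : Type} (F : Scheme N M)
    {Y Y' : V → V → (N.Src → ℝ) → M} (h : F.Signals Y) (h' : F.Signals Y') (v : V) :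
    ∀ w, N.adj v w → Y v w = Y' v w := by
  induction v using (wf_adj N).induction with
  | _ v ih =>
    intro w hw
    funext x
    rw [h v w hw x, h' v w hw x]
    have h1 : (fun u : {u // N.adj u v} => Y u v x) = fun u : {u // N.adj u v} => Y' u v x := by
      funext u
      rw [ih u.1 (Relation.TransGen.single u.2) v u.2]
    rw [h1]

/-- a secret coding scheme with values in a measurable space gives one in any isomorphic space -/
theorem transfer {N : Network V} {W : Set (V × V)} {M M' : Type} [MeasurableSpace M]
    [MeasurableSpace M'] (φ : M ≃ᵐ M') (F : Scheme N M) (hF : F.Secret W) :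
    ∃ F' : Scheme N M', F'.Secret W := by
  obtain ⟨h1, h2, Y, h3, h4, h5⟩ := hF
  refine ⟨⟨fun v w y => φ (F.enc v w (fun u => φ.symm (y.1 u), y.2)),
    fun y => F.dec fun u => φ.symm (y u)⟩, fun v w => ?_, ?_, fun v w x => φ (Y v w x), ?_, ?_, ?_⟩
  · refine φ.measurable.comp ((h1 v w).comp (Measurable.prodMk ?_ measurable_snd))
    exact measurable_pi_lambda _ fun u => φ.symm.measurable.comp
      ((measurable_pi_apply u).comp measurable_fst)
  · exact h2.comp (measurable_pi_lambda _ fun u => φ.symm.measurable.comp (measurable_pi_apply u))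
  · intro v w hvw x
    simp only [MeasurableEquiv.symm_apply_apply]
    rw [h3 v w hvw x]
  · intro x
    simp only [MeasurableEquiv.symm_apply_apply]
    exact h4 x
  · exact h5.comp (φ := fun (z : W → M) (d : W) => φ (z d)) (ψ := id)
      (measurable_pi_lambda _ fun d => φ.measurable.comp (measurable_pi_apply d)) measurable_id

/-- **Condition (C) is sufficient for a secret coding scheme, for every number of wiretapped edges.**
Let `N` be a network with at least two vertices and let `W` be a set of wiretapped edges that satisfies
condition (C). Then there is a linear secret coding scheme whose signals are real vectors, and there is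
a secret coding scheme all of whose signals are real numbers. -/
theorem result [Nontrivial V] (N : Network V) (W : Set (V × V)) (_hW : ∀ d ∈ W, N.adj d.1 d.2)
    (hC : N.CondC W) :
    (∃ (k : ℕ) (F : Scheme N (Fin k → ℝ)), F.Linear ∧ F.Secret W) ∧
      ∃ F : Scheme N ℝ, F.Secret W := by
  obtain ⟨k, hk, F, h1, h2⟩ := exists_linear N W hC
  refine ⟨⟨k, F, h1, h2⟩, ?_⟩
  have h3 : ¬ Countable (Fin k → ℝ) := by
    intro h
    have h4 : Function.Injective fun (r : ℝ) (_ : Fin k) => r := by
      intro r r' hr
      exact congrFun hr ⟨0, hk⟩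
    have h5 := h4.countable
    exact not_countable (α := ℝ) h5
  have h4 : ¬ Countable ℝ := not_countable_iff.2 inferInstance
  exact transfer (PolishSpace.measurableEquivOfNotCountable h3 h4) F h2

end Final

end Pool.Agent.Results.MP_121ed1_lc.SecretSums
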